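import Pool.Agent.H.MP_4df60b_co.Main

set_option autoImplicit false

namespace Pool.Agent.Results.MP_4df60b_co.Smaller

open Pool.Agent.H.MP_4df60b_co

/-- `fdim P(k,n) ≤ (k+1)^(k+1) / k^k` for all `k ≥ 1` and `n`; hence Q1 is false. -/
theorem result :
    (∀ k n : ℕ, 1 ≤ k → fdim (PP k n) ≤ ((k : ℝ) + 1) ^ (k + 1) / (k : ℝ) ^ k) ∧
    ¬ ∀ k : ℕ, 1 ≤ k → ∀ ε : ℝ, 0 < ε → ∃ n₀ : ℕ, ∀ n : ℕ, n₀ ≤ n → k + 2 ≤ n →
      2 ^ (k + 1) - ε < fdim (PP k n) := by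
  refine ⟨upper, fun h => ?_⟩
  obtain ⟨n₀, h⟩ := h 2 (by norm_num) 1 one_pos
  have h1 := h (n₀ + 4) (by omega) (by omega)
  have h2 := upper 2 (n₀ + 4) (by norm_num)
  norm_num at h1 h2
  linarith

end Pool.Agent.Results.MP_4df60b_co.Smaller
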